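import Pool.Agent.LRG.StmtsD

/-!
# LRG, row CNJ (helper86): conjugates of a unit with small logarithmic embedding
-/

set_option autoImplicit false

open NumberField NumberField.Units NumberField.Units.dirichletUnitTheorem Module

namespace Pool.Agent.LRG.H86

theorem card_le (K : Type) [Field K] [NumberField K] :
    Fintype.card (InfinitePlace K) ≤ finrank ℚ K := by
  rw [InfinitePlace.card_eq_nrRealPlaces_add_nrComplexPlaces,
    ← InfinitePlace.card_add_two_mul_card_eq_rank K]
  omega

theorem cnj : D.CnjStmt := by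
  classical
  intro K _ _ u H hH hu σ
  have h1 : ‖logEmbedding K (Additive.ofMul u)‖ ≤ H := by
    rw [pi_norm_le_iff_of_nonneg hH]
    intro w
    rw [Real.norm_eq_abs]
    exact hu w
  have h2 := log_le_of_logEmbedding_le hH h1 (InfinitePlace.mk σ)
  have h3 : (InfinitePlace.mk σ) ((u : 𝓞 K) : K) = ‖σ ((u : 𝓞 K) : K)‖ := InfinitePlace.apply σ _
  have h4 : 0 < (InfinitePlace.mk σ) ((u : 𝓞 K) : K) := NumberField.Units.pos_at_place u _
  have h5 : Real.log ‖σ ((u : 𝓞 K) : K)‖ ≤ finrank ℚ K * H := by
    rw [← h3]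
    refine (le_abs_self _).trans (h2.trans ?_)
    exact mul_le_mul_of_nonneg_right (by exact_mod_cast card_le K) hH
  rw [h3] at h4
  exact (Real.log_le_iff_le_exp h4).1 h5

end Pool.Agent.LRG.H86
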